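import Pool.Agent.Helper10_HNF.E2Step

/-!
# The core of Engine I (finiteness of the bad sets)
-/

set_option autoImplicit false
set_option linter.unusedSectionVars false

namespace Pool.Agent.HNF10

open Set Filter Topology

variable {G : Type*} [Group G] [TopologicalSpace G] {d : G → G → ℝ}

/-- sequences of `U` have two members that stay `V`-close after conjugation by elements of `W` -/
def Phi (W V U : Set G) : Prop :=
  ∀ x ∈ W, ∀ c : ℕ → G, (∀ k, c k ∈ U) → ∃ l l', l ≠ l' ∧ x * c l * (c l')⁻¹ * x⁻¹ ∈ V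

/-- **The bad sets of Engine I are finite**, first form. -/
theorem bad_finite (hd : LInv d) {W₀ V V' U : Set G} (hPhi : Phi W₀ V' U) {θ : ℕ → G}
    (hθ : ∀ l l', l ≠ l' → θ l * (θ l')⁻¹ ∉ V) {L : Set G}
    (hL : ∀ x ∈ L, ∀ y ∈ L, ∀ v ∈ V', x * v * y⁻¹ ∈ V) {Λ : Set G}
    (hW : ∀ x ∈ L, ∀ l, ∀ u ∈ Λ, x⁻¹ * θ l * u ∈ W₀) {β : G} {R : ℝ}
    (hβ : ∀ g, d g 1 < R → β * g * β⁻¹ ∈ U) {X : Set G} {δ r : ℝ}
    (hX1 : ∀ x ∈ X, ∃ u ∈ Λ, x = u * β) (hX2 : ∀ x ∈ X, ∀ x' ∈ X, d x x' < δ)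
    (hR : 2 * (r + δ) ≤ R) (b : G) :
    {l | ∃ x ∈ X, ∃ y ∈ L, d (θ l * x) (y * b) < r}.Finite := by
  by_contra hinf
  have hinf : {l | ∃ x ∈ X, ∃ y ∈ L, d (θ l * x) (y * b) < r}.Infinite := hinf
  set s := hinf.natEmbedding with hs
  choose x hx y hy hxy using fun k => (s k).2
  obtain ⟨u, hu, hxu⟩ := hX1 (x 0) (hx 0)
  set l : ℕ → ℕ := fun k => (s k : ℕ) with hl
  have hlinj : ∀ k k', k ≠ k' → l k ≠ l k' := by
    intro k k' hkk h
    exact hkk (s.injective (Subtype.ext h))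
  -- the small elements
  set c : ℕ → G := fun k => (θ (l k) * x 0)⁻¹ * (y k * b) with hc
  have hcsmall : ∀ k, d (c k) 1 < r + δ := by
    intro k
    have h1 : d (c k) 1 = d (y k * b) (θ (l k) * x 0) := by
      rw [← hd.left (θ (l k) * x 0)]
      simp only [hc, mul_inv_cancel_left, mul_one]
    have h2 := hd.tri (y k * b) (θ (l k) * x k) (θ (l k) * x 0)
    have h3 : d (y k * b) (θ (l k) * x k) < r := by
      rw [hd.comm]
      exact hxy k
    have h4 : d (θ (l k) * x k) (θ (l k) * x 0) < δ := by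
      rw [hd.left]
      exact hX2 _ (hx k) _ (hx 0)
    rw [h1]
    linarith
  have hinv : ∀ g, d g⁻¹ 1 = d g 1 := by
    intro g
    rw [← hd.left g, mul_inv_cancel, mul_one, hd.comm]
  have hsmall : ∀ k, d (c 0 * (c k)⁻¹) 1 < R := by
    intro k
    have h1 := hd.tri (c 0 * (c k)⁻¹) (c 0 * 1) 1
    rw [hd.left, hinv, mul_one] at h1
    have h2 := hcsmall 0
    have h3 := hcsmall k
    linarith
  obtain ⟨k, k', hkk, hV⟩ := hPhi ((y 0)⁻¹ * θ (l 0) * u) (hW _ (hy 0) _ _ hu)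
    (fun k => β * (c 0 * (c k)⁻¹) * β⁻¹) (fun k => hβ _ (hsmall k))
  have key : ∀ k, y k * ((y 0)⁻¹ * θ (l 0) * u) * (β * (c 0 * (c k)⁻¹) * β⁻¹) = θ (l k) * u := by
    intro k
    simp only [hc, hxu]
    group
  have h1 := hL _ (hy k) _ (hy k') _ hV
  refine hθ (l k) (l k') (hlinj k k' hkk) ?_
  have h2 : θ (l k) * (θ (l k'))⁻¹ = (θ (l k) * u) * (θ (l k') * u)⁻¹ := by group
  rw [h2, ← key k, ← key k']
  have h3 : ∀ a z t t' a' : G, a * z * t * (a' * z * t')⁻¹ = a * (z * t * t'⁻¹ * z⁻¹) * a'⁻¹ := by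
    intro a z t t' a'
    group
  rw [h3]
  exact h1

/-- **The bad sets of Engine I are finite**, second form (the target has a name with a
larger scale). -/
theorem bad_finite' (hd : LInv d) {W₀ V V' U : Set G} (hPhi : Phi W₀ V' U) {θ : ℕ → G}
    (hθ : ∀ l l', l ≠ l' → θ l * (θ l')⁻¹ ∉ V) (hVV : V' ⊆ V) {ω β s : G} (hω : ω ∈ W₀) {R : ℝ}
    (hβ : ∀ g, d g 1 < R → β * g * β⁻¹ ∈ U) {X : Set G} {δ η' r : ℝ}
    (hX2 : ∀ x ∈ X, ∀ x' ∈ X, d x x' < δ) (hs : d s 1 < η') (hR : r + δ + η' ≤ R) :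
    {l | ∃ x ∈ X, d (θ l * x) (ω * β * s) < r}.Finite := by
  by_contra hinf
  have hinf : {l | ∃ x ∈ X, d (θ l * x) (ω * β * s) < r}.Infinite := hinf
  set e := hinf.natEmbedding with he
  choose x hx hxy using fun k => (e k).2
  set l : ℕ → ℕ := fun k => (e k : ℕ) with hl
  have hlinj : ∀ k k', k ≠ k' → l k ≠ l k' := by
    intro k k' hkk h
    exact hkk (e.injective (Subtype.ext h))
  set c : ℕ → G := fun k => (ω * β * s)⁻¹ * (θ (l k) * x 0) with hc
  have hcsmall : ∀ k, d (c k) 1 < r + δ := by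
    intro k
    have h1 : d (c k) 1 = d (θ (l k) * x 0) (ω * β * s) := by
      rw [← hd.left (ω * β * s)]
      simp only [hc, mul_inv_cancel_left, mul_one]
    have h2 := hd.tri (θ (l k) * x 0) (θ (l k) * x k) (ω * β * s)
    have h3 : d (θ (l k) * x k) (ω * β * s) < r := hxy k
    have h4 : d (θ (l k) * x 0) (θ (l k) * x k) < δ := by
      rw [hd.left]
      exact hX2 _ (hx 0) _ (hx k)
    rw [h1]
    linarith
  have hsmall : ∀ k, d (s * c k) 1 < R := by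
    intro k
    have h1 := hd.tri (s * c k) (s * 1) 1
    rw [hd.left, mul_one] at h1
    have h3 := hcsmall k
    linarith
  obtain ⟨k, k', hkk, hV⟩ := hPhi ω hω (fun k => β * (s * c k) * β⁻¹) (fun k => hβ _ (hsmall k))
  refine hθ (l k) (l k') (hlinj k k' hkk) (hVV ?_)
  have h3 : ω * (β * (s * c k) * β⁻¹) * (β * (s * c k') * β⁻¹)⁻¹ * ω⁻¹ =
      θ (l k) * (θ (l k'))⁻¹ := by
    simp only [hc]
    group
  rw [← h3]
  exact hV

end Pool.Agent.HNF10
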