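import Mathlib

/-!
# The core of Engine II (dispersing points, reserves)

`d` is a compatible left invariant metric (as a function) on a topological group.
-/

set_option autoImplicit false
set_option linter.unusedSectionVars false

namespace Pool.Agent.HNF10

open Set Filter Topology

/-- a compatible left invariant metric, as a function -/
structure LInv {G : Type*} [Group G] [TopologicalSpace G] (d : G → G → ℝ) : Prop where
  self : ∀ x, d x x = 0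
  comm : ∀ x y, d x y = d y x
  tri : ∀ x y z, d x z ≤ d x y + d y z
  left : ∀ a x y, d (a * x) (a * y) = d x y
  op : ∀ s : Set G, IsOpen s ↔ ∀ x ∈ s, ∃ ε > 0, ∀ y, d x y < ε → y ∈ s

variable {G : Type*} [Group G] [TopologicalSpace G] {d : G → G → ℝ}

theorem LInv.nonneg (hd : LInv d) (x y : G) : 0 ≤ d x y := by
  have h1 := hd.tri x y x
  rw [hd.self, hd.comm y x] at h1
  linarith

theorem LInv.isOpen_ball (hd : LInv d) (x : G) (ε : ℝ) : IsOpen {y | d x y < ε} := by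
  rw [hd.op]
  intro y hy
  refine ⟨ε - d x y, sub_pos.2 hy, fun z hz => ?_⟩
  have := hd.tri x y z
  simp only [mem_ofPred_eq] at hy ⊢
  linarith

theorem LInv.ball_mem (hd : LInv d) (x : G) {ε : ℝ} (hε : 0 < ε) : {y | d x y < ε} ∈ 𝓝 x :=
  (hd.isOpen_ball x ε).mem_nhds (by simpa [hd.self] using hε)

/-- small elements move a given point little -/
theorem LInv.move_mem [IsTopologicalGroup G] (hd : LInv d) (y : G) {δ : ℝ} (hδ : 0 < δ) :
    {s : G | d (s * y) y < δ} ∈ 𝓝 (1 : G) := by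
  have hc : Continuous fun s : G => s * y := by fun_prop
  have h1 := hc.continuousAt.preimage_mem_nhds (x := 1)
    (t := {z | d y z < δ}) (by simpa using hd.ball_mem y hδ)
  refine mem_of_superset h1 fun s hs => ?_
  simp only [mem_preimage, mem_ofPred_eq] at hs ⊢
  rw [hd.comm]
  exact hs

/-- a set `B'` with a reserve `β` serves the pairs `Q` -/
def Srv (d : G → G → ℝ) (B' β : Set G) (Q : Set (G × ℝ)) : Prop :=
  ∀ C : Set G, C.Finite → ∃ τ ∈ B', (∀ s ∈ β, τ * s ∈ B') ∧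
    ∀ q ∈ Q, ∀ c ∈ C, ∀ s ∈ β, q.2 ≤ d (τ * s * q.1) c

theorem Srv.anti {B' β β' : Set G} {Q Q' : Set (G × ℝ)} (h : Srv d B' β Q) (hβ : β' ⊆ β)
    (hQ : Q' ⊆ Q) : Srv d B' β' Q' := by
  intro C hC
  obtain ⟨τ, h1, h2, h3⟩ := h C hC
  exact ⟨τ, h1, fun s hs => h2 s (hβ hs), fun q hq c hc s hs => h3 q (hQ hq) c hc s (hβ hs)⟩

theorem Srv.empty {B' β : Set G} (h1 : (1 : G) ∈ B') (hβ : β ⊆ B') :
    Srv d B' β ∅ := by
  intro C hC
  exact ⟨1, h1, fun s hs => by simpa using hβ hs, fun q hq => absurd hq (notMem_empty q)⟩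

/-- **Extension of the served pairs.** -/
theorem Srv.ext (hd : LInv d) {B' β U : Set G} {Q : Set (G × ℝ)} (h : Srv d B' β Q)
    (hU1 : (1 : G) ∈ U) (hUU : ∀ s ∈ U, ∀ t ∈ U, s * t ∈ β) {Y : Set G} (hY : Y.Finite)
    {b : ℕ → G} (hb : ∀ k, b k ∈ U) {r δ : ℝ}
    (hsep : ∀ y ∈ Y, ∀ k k', k ≠ k' → r ≤ d (b k * y) (b k' * y))
    {β' : Set G} (hβU : β' ⊆ U) (hβδ : ∀ s ∈ β', ∀ y ∈ Y, d (s * y) y < δ) :
    Srv d B' β' (Q ∪ (fun y => (y, r / 2 - δ)) '' Y) := by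
  intro C hC
  obtain ⟨τ, h1, h2, h3⟩ := h C hC
  have hfin : {k : ℕ | ∃ y ∈ Y, ∃ c ∈ C, d (b k * y) (τ⁻¹ * c) < r / 2}.Finite := by
    have : {k : ℕ | ∃ y ∈ Y, ∃ c ∈ C, d (b k * y) (τ⁻¹ * c) < r / 2} =
        ⋃ y ∈ Y, ⋃ c ∈ C, {k : ℕ | d (b k * y) (τ⁻¹ * c) < r / 2} := by
      ext k
      simp
    rw [this]
    refine hY.biUnion fun y hy => hC.biUnion fun c hc => ?_
    refine Set.Subsingleton.finite fun k hk k' hk' => ?_
    by_contra hne
    have h4 := hsep y hy k k' hne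
    have h5 := hd.tri (b k * y) (τ⁻¹ * c) (b k' * y)
    rw [hd.comm (τ⁻¹ * c)] at h5
    simp only [mem_ofPred_eq] at hk hk'
    linarith
  obtain ⟨k, hk⟩ := hfin.infinite_compl.nonempty
  have hbβ : b k ∈ β := by simpa using hUU (b k) (hb k) 1 hU1
  refine ⟨τ * b k, h2 _ hbβ, fun s hs => ?_, ?_⟩
  · rw [mul_assoc]
    exact h2 _ (hUU _ (hb k) _ (hβU hs))
  · rintro q (hq | ⟨y, hy, rfl⟩) c hc s hs
    · have := h3 q hq c hc (b k * s) (hUU _ (hb k) _ (hβU hs))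
      rwa [← mul_assoc τ] at this
    · have h4 : r / 2 ≤ d (b k * y) (τ⁻¹ * c) := by
        by_contra hlt
        exact hk ⟨y, hy, c, hc, not_le.1 hlt⟩
      have h5 : d (b k * y) (τ⁻¹ * c) = d (τ * b k * y) c := by
        rw [← hd.left τ]
        simp [mul_assoc]
      have h6 := hd.tri (τ * b k * y) (τ * b k * s * y) c
      have h7 : d (τ * b k * y) (τ * b k * s * y) = d y (s * y) := by
        rw [mul_assoc (τ * b k) s y, hd.left]
      have h8 := hβδ s hs y hy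
      rw [hd.comm] at h8
      simp only
      linarith

/-- Thinning a sequence with respect to finitely many sequences of points. -/
theorem exists_thin {ι : Type*} {S : Set ι} (hS : S.Finite) (f : ι → ℕ → G) (r : ι → ℝ) :
    ∃ M : Set ℕ, M.Infinite ∧ ∀ i ∈ S, (∃ c, ∀ m ∈ M, d (f i m) c < r i) ∨
      ∀ x, {m | m ∈ M ∧ d (f i m) x < r i}.Finite := by
  induction S, hS using Set.Finite.induction_on with
  | empty => exact ⟨univ, infinite_univ, fun i hi => absurd hi (notMem_empty i)⟩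
  | @insert a s ha hs ih =>
    obtain ⟨M, hM, h⟩ := ih
    by_cases hx : ∃ x, {m | m ∈ M ∧ d (f a m) x < r a}.Infinite
    · obtain ⟨x, hx⟩ := hx
      refine ⟨_, hx, ?_⟩
      rintro i (rfl | hi)
      · exact Or.inl ⟨x, fun m hm => hm.2⟩
      · rcases h i hi with ⟨c, hc⟩ | h1
        · exact Or.inl ⟨c, fun m hm => hc m hm.1⟩
        · exact Or.inr fun y => (h1 y).subset fun m hm => ⟨hm.1.1, hm.2⟩
    · push Not at hx
      refine ⟨M, hM, ?_⟩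
      rintro i (rfl | hi)
      · exact Or.inr fun x => hx x
      · exact h i hi

/-- **The own sequence** of a node: separated and dispersing. -/
theorem exists_own [IsTopologicalGroup G] [FirstCountableTopology G] (hd : LInv d)
    (hII : ∀ W ∈ 𝓝 (1 : G), ∃ e > 0, ∀ U ∈ 𝓝 (1 : G), ∃ x ∈ W, ∃ b : ℕ → G,
      (∀ k, b k ∈ U) ∧ ∀ k k', k ≠ k' → e ≤ d (b k * x) (b k' * x))
    {A' : Set G} (hA' : A' ∈ 𝓝 (1 : G)) :
    ∃ e > 0, ∃ a : ℕ → G, (∀ m, a m ∈ A') ∧ (∀ m m', m ≠ m' → e ≤ d (a m) (a m')) ∧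
      ∀ U ∈ 𝓝 (1 : G), ∃ m₀, ∀ m ≥ m₀, ∃ b : ℕ → G, (∀ k, b k ∈ U) ∧
        ∀ k k', k ≠ k' → e ≤ d (b k * a m) (b k' * a m) := by
  obtain ⟨e, he, h⟩ := hII A' hA'
  obtain ⟨V, hV⟩ := (𝓝 (1 : G)).exists_antitone_basis
  choose x hxA b hbV hbsep using fun n => h (V n) (hV.mem n)
  have hball : ∀ y, {n | d (x n) y < e / 8}.Finite := by
    intro y
    by_contra hinf
    have hinf : {n | d (x n) y < e / 8}.Infinite := hinf
    obtain ⟨m₀, hm₀⟩ := hinf.nonempty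
    have h8 : 0 < e / 8 := by linarith
    obtain ⟨N, hN⟩ : ∃ N, V N ⊆ {s | d (s * x m₀) (x m₀) < e / 8} := by
      obtain ⟨N, -, hN⟩ := hV.1.mem_iff.1 (hd.move_mem (x m₀) h8)
      exact ⟨N, hN⟩
    obtain ⟨m, hm, hNm⟩ := hinf.exists_gt N
    have hdx : d (x m) (x m₀) < e / 4 := by
      have h1 := hd.tri (x m) y (x m₀)
      have h2 : d (x m₀) y < e / 8 := hm₀
      have h3 : d (x m) y < e / 8 := hm
      rw [hd.comm y] at h1
      linarith
    have key : ∀ k, d (b m k * x m) (x m₀) < e / 4 + e / 8 := by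
      intro k
      have h1 := hd.tri (b m k * x m) (b m k * x m₀) (x m₀)
      rw [hd.left] at h1
      have h2 : d (b m k * x m₀) (x m₀) < e / 8 := hN (hV.2 hNm.le (hbV m k))
      linarith
    have h1 := hbsep m 0 1 (by norm_num)
    have h2 := hd.tri (b m 0 * x m) (x m₀) (b m 1 * x m)
    rw [hd.comm (x m₀)] at h2
    have h3 := key 0
    have h4 := key 1
    linarith
  obtain ⟨φ, -, hφ⟩ := exists_seq_of_forall_finset_exists (fun _ : ℕ => True)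
    (fun m n => m < n ∧ e / 8 ≤ d (x m) (x n)) (by
      intro s _
      have hfin : (⋃ m ∈ (s : Set ℕ), {n | d (x n) (x m) < e / 8}).Finite :=
        s.finite_toSet.biUnion fun m _ => hball (x m)
      obtain ⟨n, hn1, hn2⟩ : ∃ n, n ∉ (⋃ m ∈ (s : Set ℕ), {n | d (x n) (x m) < e / 8}) ∧
          s.sup id < n := by
        obtain ⟨n, hn, hn'⟩ := hfin.infinite_compl.exists_gt (s.sup id)
        exact ⟨n, hn, hn'⟩
      refine ⟨n, trivial, fun m hm => ⟨?_, ?_⟩⟩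
      · exact lt_of_le_of_lt (Finset.le_sup (f := id) hm) hn2
      · by_contra hlt
        refine hn1 (mem_biUnion (show m ∈ (s : Set ℕ) from hm) ?_)
        simp only [mem_ofPred_eq]
        rw [hd.comm]
        exact not_le.1 hlt)
  have hmono : StrictMono φ := fun m n hmn => (hφ m n hmn).1
  refine ⟨e / 8, by linarith, fun m => x (φ m), fun m => hxA _, ?_, ?_⟩
  · intro m m' hne
    rcases lt_or_gt_of_ne hne with h1 | h1
    · exact (hφ _ _ h1).2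
    · rw [hd.comm]
      exact (hφ _ _ h1).2
  · intro U hU
    obtain ⟨N, -, hN⟩ := hV.1.mem_iff.1 hU
    refine ⟨N, fun m hm => ⟨b (φ m), fun k => ?_, fun k k' hkk => ?_⟩⟩
    · exact hN (hV.2 (hm.trans (hmono.id_le m)) (hbV _ k))
    · have := hbsep (φ m) k k' hkk
      linarith

/-- **One step of Engine II.** -/
theorem step [IsTopologicalGroup G] (hd : LInv d) {ι : Type*} {W : Set ι} {B' : ι → Set G}
    {β : Set G} (hβ : β ∈ 𝓝 (1 : G)) {Q : ι → Set (G × ℝ)}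
    (hSrv : ∀ w ∈ W, Srv d (B' w) β (Q w)) {p : ι} (hp : p ∈ W) (hQf : (Q p).Finite)
    (hQpos : ∀ q ∈ Q p, 0 < q.2) {a : ℕ → G} {e : ℝ}
    (hasep : ∀ m m', m ≠ m' → e ≤ d (a m) (a m'))
    (hadis : ∀ U ∈ 𝓝 (1 : G), ∃ m₀, ∀ m ≥ m₀, ∃ b : ℕ → G, (∀ k, b k ∈ U) ∧
        ∀ k k', k ≠ k' → e ≤ d (b k * a m) (b k' * a m))
    {Z : Set G} (hZ : Z.Finite) {ρ : ℝ} (hρ : 0 < ρ)
    (hLev : ∀ ζ ∈ Z, ∀ g, e ≤ d g 1 → ρ / 2 ≤ d (g * ζ) ζ) {C : Set G} (hC : C.Finite) :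
    ∃ τ ∈ B' p, ∃ m, (∀ q ∈ Q p, ∀ c ∈ C, q.2 / 10 ≤ d ((τ⁻¹ * a m)⁻¹ * q.1) c) ∧
      (∀ ζ ∈ Z, ∀ c ∈ C, ρ / 4 ≤ d (τ⁻¹ * a m * ζ) c) ∧
      ∃ β' ∈ 𝓝 (1 : G), β' ⊆ β ∧ ∀ w ∈ W,
        Srv d (B' w) β' (Q w ∪ (fun ζ => (τ⁻¹ * a m * ζ, ρ / 8)) '' Z) := by
  -- thinning
  obtain ⟨M, hM, hthin⟩ := exists_thin (d := d) (hC.prod hQf)
    (fun i : G × (G × ℝ) => fun m => a m * i.1) (fun i => i.2.2 / 10)
  -- the exceptional points
  choose! c' hc' using fun (i : G × (G × ℝ)) (h : ∃ c, ∀ m ∈ M, d (a m * i.1) c < i.2.2 / 10) => h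
  obtain ⟨τ, hτ, -, hτQ⟩ := hSrv p hp (c' '' (C ×ˢ Q p)) ((hC.prod hQf).image c')
  have h1β : (1 : G) ∈ β := mem_of_mem_nhds hβ
  -- a small neighbourhood
  obtain ⟨U, hU, hUU⟩ : ∃ U ∈ 𝓝 (1 : G), ∀ s ∈ U, ∀ t ∈ U, s * t ∈ β := by
    obtain ⟨U, hU, hU1, hUU⟩ := exists_open_nhds_one_mul_subset hβ
    exact ⟨U, hU.mem_nhds hU1, fun s hs t ht => hUU (Set.mul_mem_mul hs ht)⟩
  have hU' : {b : G | τ⁻¹ * b * τ ∈ U} ∈ 𝓝 (1 : G) := by
    have hc : Continuous fun b : G => τ⁻¹ * b * τ := by fun_prop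
    exact hc.continuousAt.preimage_mem_nhds (by simpa using hU)
  obtain ⟨m₀, hm₀⟩ := hadis _ hU'
  -- finitely many bad indices
  have hbad1 : {m | m ∈ M ∧ ∃ q ∈ Q p, ∃ c ∈ C, d (τ * q.1) (a m * c) < q.2 / 10}.Finite := by
    have h1 : {m | m ∈ M ∧ ∃ q ∈ Q p, ∃ c ∈ C, d (τ * q.1) (a m * c) < q.2 / 10} ⊆
        ⋃ i ∈ C ×ˢ Q p, {m | m ∈ M ∧ d (τ * i.2.1) (a m * i.1) < i.2.2 / 10} := by
      rintro m ⟨hm, q, hq, c, hc, h⟩
      exact mem_biUnion (show (c, q) ∈ C ×ˢ Q p from ⟨hc, hq⟩) ⟨hm, h⟩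
    refine Set.Finite.subset ((hC.prod hQf).biUnion fun i hi => ?_) h1
    rcases hthin i hi with h2 | h2
    · have h3 := hc' i h2
      refine Set.finite_empty.subset ?_
      rintro m ⟨hm, h4⟩
      exfalso
      have h5 := h3 m hm
      have h6 := hτQ i.2 hi.2 (c' i) (mem_image_of_mem c' hi) 1 h1β
      rw [mul_one] at h6
      have h7 := hd.tri (τ * i.2.1) (a m * i.1) (c' i)
      have h8 := hQpos i.2 hi.2
      linarith
    · refine (h2 (τ * i.2.1)).subset fun m hm => ⟨hm.1, ?_⟩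
      rw [hd.comm]
      exact hm.2
  have hbad2 : {m | ∃ ζ ∈ Z, ∃ c ∈ C, d (a m * ζ) (τ * c) < ρ / 4}.Finite := by
    have h1 : {m | ∃ ζ ∈ Z, ∃ c ∈ C, d (a m * ζ) (τ * c) < ρ / 4} =
        ⋃ ζ ∈ Z, ⋃ c ∈ C, {m | d (a m * ζ) (τ * c) < ρ / 4} := by
      ext m
      simp
    rw [h1]
    refine hZ.biUnion fun ζ hζ => hC.biUnion fun c _ => ?_
    refine Set.Subsingleton.finite fun m hm m' hm' => ?_
    by_contra hne
    have h2 := hLev ζ hζ ((a m')⁻¹ * a m) (by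
      rw [← hd.left (a m'), mul_inv_cancel_left, mul_one]
      exact hasep m m' hne)
    rw [← hd.left (a m')] at h2
    have h3 : a m' * ((a m')⁻¹ * a m * ζ) = a m * ζ := by group
    rw [h3] at h2
    have h4 := hd.tri (a m * ζ) (τ * c) (a m' * ζ)
    rw [hd.comm (τ * c)] at h4
    simp only [mem_ofPred_eq] at hm hm'
    linarith
  obtain ⟨m, ⟨hmM, hmbad⟩, hm⟩ := (hM.sdiff (hbad1.union hbad2)).exists_gt m₀
  have hmb1 : m ∉ {m | m ∈ M ∧ ∃ q ∈ Q p, ∃ c ∈ C, d (τ * q.1) (a m * c) < q.2 / 10} :=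
    fun h => hmbad (Or.inl h)
  have hmb2 : m ∉ {m | ∃ ζ ∈ Z, ∃ c ∈ C, d (a m * ζ) (τ * c) < ρ / 4} :=
    fun h => hmbad (Or.inr h)
  obtain ⟨b, hbU, hbsep⟩ := hm₀ m hm.le
  refine ⟨τ, hτ, m, ?_, ?_, ?_⟩
  · intro q hq c hc
    have h1 : ¬ d (τ * q.1) (a m * c) < q.2 / 10 := fun h => hmb1 ⟨hmM, q, hq, c, hc, h⟩
    have h2 : d ((τ⁻¹ * a m)⁻¹ * q.1) c = d (τ * q.1) (a m * c) := by
      rw [← hd.left (a m)]
      congr 1
      group
    rw [h2]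
    exact not_lt.1 h1
  · intro ζ hζ c hc
    have h1 : ¬ d (a m * ζ) (τ * c) < ρ / 4 := fun h => hmb2 ⟨ζ, hζ, c, hc, h⟩
    have h2 : d (τ⁻¹ * a m * ζ) c = d (a m * ζ) (τ * c) := by
      rw [← hd.left τ]
      congr 1
      group
    rw [h2]
    exact not_lt.1 h1
  · have h8 : 0 < ρ / 8 := by linarith
    refine ⟨U ∩ ⋂ ζ ∈ Z, {s | d (s * (τ⁻¹ * a m * ζ)) (τ⁻¹ * a m * ζ) < ρ / 8},
      inter_mem hU ((biInter_mem hZ).2 fun ζ _ => hd.move_mem _ h8), ?_, ?_⟩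
    · rintro s ⟨hs, -⟩
      simpa using hUU s hs 1 (mem_of_mem_nhds hU)
    · intro w hw
      have h9 : (fun ζ => (τ⁻¹ * a m * ζ, ρ / 8)) '' Z =
          (fun y => (y, ρ / 2 / 2 - ρ / 8)) '' ((fun ζ => τ⁻¹ * a m * ζ) '' Z) := by
        rw [image_image]
        congr 1
        funext ζ
        congr 1
        ring
      rw [h9]
      refine (hSrv w hw).ext hd (mem_of_mem_nhds hU) hUU (hZ.image _)
        (b := fun k => τ⁻¹ * b k * τ) hbU ?_ inter_subset_left ?_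
      · rintro _ ⟨ζ, hζ, rfl⟩ k k' hkk
        have h3 : ∀ k, τ⁻¹ * b k * τ * (τ⁻¹ * a m * ζ) = τ⁻¹ * (b k * a m * ζ) := by
          intro k
          group
        simp only [h3]
        rw [hd.left]
        have h4 := hLev ζ hζ ((b k' * a m)⁻¹ * (b k * a m)) (by
          rw [← hd.left (b k' * a m), mul_inv_cancel_left, mul_one]
          exact hbsep k k' hkk)
        rw [← hd.left (b k' * a m)] at h4
        have h5 : b k' * a m * ((b k' * a m)⁻¹ * (b k * a m) * ζ) = b k * a m * ζ := by group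
        rwa [h5] at h4
      · rintro s ⟨-, hs⟩ _ ⟨ζ, hζ, rfl⟩
        exact mem_iInter₂.1 hs ζ hζ

end Pool.Agent.HNF10
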