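import Pool.Agent.Helper10_HNF.Steps
import Pool.Agent.Helper71_HNF.StmtE

/-!
# E1BAD, E2OWN, E2STEP in the form of the squad
-/

set_option autoImplicit false
set_option linter.unusedSectionVars false

namespace Pool.Agent.HNF.H10

open Set Filter Topology Pool.Agent.HNF

theorem e1Bad : E1BadStmt := by
  intro G _ _ _ N W0 U V V1 V2 θ hPhi hV hθ X β r hX hβ T hT hW b
  have hd := lInv N
  refine (HNF10.bad_finite hd (U := U) (V := V) hPhi hθ (L := T) (Λ := (fun x => x * β⁻¹) '' X)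
    (fun x hx y hy v hv => hV x (hT hx) v hv y (hT hy)) ?_ (β := β) (R := 4 * r) ?_
    (X := X) (δ := r) (r := r) ?_ ?_ (by linarith) b).subset ?_
  · rintro t ht l _ ⟨x, hx, rfl⟩
    have := hW t ht l x hx
    rwa [← mul_assoc]
  · intro g hg
    refine hβ g ?_
    rw [hd.comm] at hg
    simpa [dN] using hg
  · intro x hx
    exact ⟨x * β⁻¹, ⟨x, hx, rfl⟩, by group⟩
  · intro x hx x' hx'
    exact hX x hx x' hx'
  · rintro l ⟨x, hx, t, ht, h⟩
    refine ⟨x, hx, t, ht, ?_⟩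
    rw [hd.comm]
    exact h

theorem e1Bad' : E1BadStmt' := by
  intro G _ _ _ N W0 U V V1 V2 θ hPhi hV h1 hθ X r hX w β s hw hs hβ
  have hd := lInv N
  have hr : 0 < r := lt_of_le_of_lt (by
    have := hd.nonneg 1 s
    simpa [dN] using this) hs
  refine (HNF10.bad_finite' hd (U := U) (V := V) (V' := V1) hPhi hθ (fun v hv => by
    simpa using hV 1 h1 v hv 1 h1) hw (β := β) (s := s) (R := 4 * r) ?_
    (X := X) (δ := r) (η' := r) (r := r) ?_ ?_ (by linarith)).subset ?_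
  · intro g hg
    refine hβ g ?_
    rw [hd.comm] at hg
    simpa [dN] using hg
  · intro x hx x' hx'
    exact hX x hx x' hx'
  · rw [hd.comm]
    simpa [dN] using hs
  · rintro l ⟨x, hx, h⟩
    refine ⟨x, hx, ?_⟩
    rw [hd.comm]
    exact h

theorem e2Own : E2OwnStmt := by
  intro G _ _ _ _ hII N A' hA'
  obtain ⟨e, he, a, h1, h2, h3⟩ := own N hII hA'
  exact ⟨e, a, he, h1, h2, h3⟩

theorem e2Step : E2StepStmt := by
  intro G _ _ _ _ N A' e a ha t p hpt B Q β hβ hQf hQpos hSrv C hC Z hZ ρ hρ hρ1 hLev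
  obtain ⟨τ, hτ, m, h1, h2, β', h3, h4, h5⟩ := e2_step N (ι := ℕ) (W := {w | w < t}) (B := B)
    hβ (Q := Q) (fun w hw => hSrv w hw) (p := p) hpt (hQf p) (hQpos p) ha.sep ha.disp hZ hρ
    (η := ρ / 1000) (by linarith) hLev hC
  refine ⟨τ, hτ, m, β', h3, h4, h1, h2, fun w hw => ?_⟩
  refine Srv.anti (h5 w hw) subset_rfl ?_
  rintro x (hx | ⟨ζ, hζ, rfl⟩)
  · exact Or.inl hx
  · exact Or.inr ⟨ζ, hζ, rfl⟩

end Pool.Agent.HNF.H10
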