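import Pool.Agent.Helper10_HNF.E1Step
import Pool.Agent.Helper71_HNF.Stmt

/-!
# E1STEP and E2STEP in terms of the length function

`N.N (x⁻¹ * y)` is the left invariant metric `d x y`.
-/

set_option autoImplicit false
set_option linter.unusedSectionVars false

namespace Pool.Agent.HNF.H10

open Set Filter Topology Pool.Agent.HNF

variable {G : Type} [Group G] [TopologicalSpace G] [IsTopologicalGroup G]

/-- the metric of a length function -/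
def dN (N : LNorm G) (x y : G) : ℝ := N.N (x⁻¹ * y)

theorem lInv (N : LNorm G) : HNF10.LInv (dN N) where
  self x := by simp [dN, N.one]
  comm x y := by
    rw [dN, dN, ← N.inv (x⁻¹ * y)]
    congr 1
    group
  tri x y z := by
    have := N.mul_le (x⁻¹ * y) (y⁻¹ * z)
    have h : x⁻¹ * y * (y⁻¹ * z) = x⁻¹ * z := by group
    rw [h] at this
    exact this
  left a x y := by
    rw [dN, dN]
    congr 1
    group
  op s := by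
    constructor
    · intro hs x hx
      have hc : Continuous fun y : G => x * y := by fun_prop
      have h1 : {y : G | x * y ∈ s} ∈ 𝓝 (1 : G) :=
        hc.continuousAt.preimage_mem_nhds (by simpa using hs.mem_nhds hx)
      obtain ⟨ε, hε, h⟩ := N.basis _ h1
      refine ⟨ε, hε, fun y hy => ?_⟩
      have := h _ hy
      simpa using this
    · intro h
      rw [isOpen_iff_mem_nhds]
      intro x hx
      obtain ⟨ε, hε, hs⟩ := h x hx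
      have hc : Continuous fun y : G => N.N (x⁻¹ * y) := N.cont.comp (by fun_prop)
      have h1 : {y : G | N.N (x⁻¹ * y) < ε} ∈ 𝓝 x :=
        (isOpen_lt hc continuous_const).mem_nhds (by simpa [N.one] using hε)
      exact mem_of_superset h1 fun y hy => hs y hy

/-! ## Engine I -/

/-- **The bad sets of Engine I are finite**, first form: the target is `y * b` with `y ∈ L`. -/
theorem e1_bad (N : LNorm G) {W₀ V V' U : Set G}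
    (hPhi : ∀ x ∈ W₀, ∀ c : ℕ → G, (∀ l, c l ∈ U) →
      ∃ l l', l ≠ l' ∧ x * c l * (c l')⁻¹ * x⁻¹ ∈ V') {θ : ℕ → G}
    (hθ : ∀ l l', l ≠ l' → θ l * (θ l')⁻¹ ∉ V) {L : Set G}
    (hL : ∀ x ∈ L, ∀ y ∈ L, ∀ v ∈ V', x * v * y⁻¹ ∈ V) {Λ : Set G}
    (hW : ∀ x ∈ L, ∀ l, ∀ u ∈ Λ, x⁻¹ * θ l * u ∈ W₀) {n m : ℕ} {ζ β : ℕ → G} {R η r : ℝ}
    (hβ : ∀ j < m, ∀ g, N.N g < R → β j * g * (β j)⁻¹ ∈ U)
    (hR : 2 * (r + 2 * η) ≤ R) (b : G) :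
    {l | ∃ x, (∃ i < n, N.N ((ζ i)⁻¹ * x) < η) ∧ (∃ j < m, ∃ u ∈ Λ, x = u * β j) ∧
      ∃ y ∈ L, N.N ((y * b)⁻¹ * (θ l * x)) < r}.Finite := by
  have h1 : {l | ∃ x, (∃ i < n, N.N ((ζ i)⁻¹ * x) < η) ∧ (∃ j < m, ∃ u ∈ Λ, x = u * β j) ∧
      ∃ y ∈ L, N.N ((y * b)⁻¹ * (θ l * x)) < r} ⊆
      ⋃ i ∈ Set.Iio n, ⋃ j ∈ Set.Iio m,
        {l | ∃ x ∈ {x | N.N ((ζ i)⁻¹ * x) < η ∧ ∃ u ∈ Λ, x = u * β j}, ∃ y ∈ L,
          dN N (θ l * x) (y * b) < r} := by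
    rintro l ⟨x, ⟨i, hi, hx⟩, ⟨j, hj, u, hu, hxu⟩, y, hy, h⟩
    refine mem_biUnion (show i ∈ Set.Iio n from hi) (mem_biUnion (show j ∈ Set.Iio m from hj)
      ⟨x, ⟨hx, u, hu, hxu⟩, y, hy, ?_⟩)
    rw [(lInv N).comm]
    exact h
  refine Set.Finite.subset ((Set.finite_Iio n).biUnion fun i _ =>
    (Set.finite_Iio m).biUnion fun j hj => ?_) h1
  refine HNF10.bad_finite (lInv N) (U := U) (V := V) hPhi hθ hL hW (β := β j) (R := R) ?_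
    (δ := 2 * η) ?_ ?_ hR b
  · intro g hg
    refine hβ j hj g ?_
    rw [(lInv N).comm] at hg
    simpa [dN] using hg
  · exact fun x hx => hx.2
  · intro x hx x' hx'
    have h3 := (lInv N).tri x (ζ i) x'
    rw [(lInv N).comm x (ζ i)] at h3
    have h4 : dN N (ζ i) x < η := hx.1
    have h5 : dN N (ζ i) x' < η := hx'.1
    linarith

/-- first form with `L = 1`: the target is a point `b`. -/
theorem e1_bad_one (N : LNorm G) {W₀ V V' U : Set G}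
    (hPhi : ∀ x ∈ W₀, ∀ c : ℕ → G, (∀ l, c l ∈ U) →
      ∃ l l', l ≠ l' ∧ x * c l * (c l')⁻¹ * x⁻¹ ∈ V') {θ : ℕ → G}
    (hθ : ∀ l l', l ≠ l' → θ l * (θ l')⁻¹ ∉ V) (hV : V' ⊆ V) {Λ : Set G}
    (hW : ∀ l, ∀ u ∈ Λ, θ l * u ∈ W₀) {n m : ℕ} {ζ β : ℕ → G} {R η r : ℝ}
    (hβ : ∀ j < m, ∀ g, N.N g < R → β j * g * (β j)⁻¹ ∈ U)
    (hR : 2 * (r + 2 * η) ≤ R) (b : G) :
    {l | ∃ x, (∃ i < n, N.N ((ζ i)⁻¹ * x) < η) ∧ (∃ j < m, ∃ u ∈ Λ, x = u * β j) ∧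
      N.N (b⁻¹ * (θ l * x)) < r}.Finite := by
  have h := e1_bad N hPhi hθ (L := {1}) (Λ := Λ) (n := n) (ζ := ζ) (by
      rintro _ rfl _ rfl v hv
      simpa using hV hv) (by
      rintro _ rfl l u hu
      simpa using hW l u hu) hβ hR b
  refine h.subset ?_
  rintro l ⟨x, h1, h2, h3⟩
  exact ⟨x, h1, h2, 1, rfl, by simpa using h3⟩

/-- **The bad sets of Engine I are finite**, second form: the target is `ω * β * s` with
`ω ∈ W₀` and `s` small. -/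
theorem e1_bad' (N : LNorm G) {W₀ V V' U : Set G}
    (hPhi : ∀ x ∈ W₀, ∀ c : ℕ → G, (∀ l, c l ∈ U) →
      ∃ l l', l ≠ l' ∧ x * c l * (c l')⁻¹ * x⁻¹ ∈ V') {θ : ℕ → G}
    (hθ : ∀ l l', l ≠ l' → θ l * (θ l')⁻¹ ∉ V) (hV : V' ⊆ V) {ω β s : G} (hω : ω ∈ W₀)
    {n : ℕ} {ζ : ℕ → G} {R η η' r : ℝ} (hβ : ∀ g, N.N g < R → β * g * β⁻¹ ∈ U)
    (hs : N.N s < η') (hR : r + 2 * η + η' ≤ R) :
    {l | ∃ x, (∃ i < n, N.N ((ζ i)⁻¹ * x) < η) ∧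
      N.N ((ω * β * s)⁻¹ * (θ l * x)) < r}.Finite := by
  have h1 : {l | ∃ x, (∃ i < n, N.N ((ζ i)⁻¹ * x) < η) ∧
      N.N ((ω * β * s)⁻¹ * (θ l * x)) < r} ⊆
      ⋃ i ∈ Set.Iio n, {l | ∃ x ∈ {x | N.N ((ζ i)⁻¹ * x) < η},
          dN N (θ l * x) (ω * β * s) < r} := by
    rintro l ⟨x, ⟨i, hi, hx⟩, h⟩
    refine mem_biUnion (show i ∈ Set.Iio n from hi) ⟨x, hx, ?_⟩
    rw [(lInv N).comm]
    exact h
  refine Set.Finite.subset ((Set.finite_Iio n).biUnion fun i _ => ?_) h1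
  refine HNF10.bad_finite' (lInv N) (U := U) (V := V) (V' := V') hPhi hθ hV hω (R := R)
    (δ := 2 * η) (η' := η') ?_ ?_ ?_ hR
  · intro g hg
    refine hβ g ?_
    rw [(lInv N).comm] at hg
    simpa [dN] using hg
  · intro x hx x' hx'
    have h3 := (lInv N).tri x (ζ i) x'
    rw [(lInv N).comm x (ζ i)] at h3
    have h4 : dN N (ζ i) x < η := hx
    have h5 : dN N (ζ i) x' < η := hx'
    linarith
  · rw [(lInv N).comm]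
    simpa [dN] using hs

/-! ## Engine II -/

/-- a set `B` with a reserve `β` serves the pairs `Q` -/
def Srv (N : LNorm G) (B β : Set G) (Q : Set (G × ℝ)) : Prop :=
  ∀ C : Set G, C.Finite → ∃ τ ∈ B, (∀ s ∈ β, τ * s ∈ B) ∧
    ∀ q ∈ Q, ∀ c ∈ C, ∀ s ∈ β, q.2 ≤ N.N (c⁻¹ * (τ * s * q.1))

theorem Srv.iff (N : LNorm G) (B β : Set G) (Q : Set (G × ℝ)) :
    Srv N B β Q ↔ HNF10.Srv (dN N) B β Q := by
  have h : ∀ c x : G, N.N (c⁻¹ * x) = dN N x c := fun c x => by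
    rw [(lInv N).comm]
    rfl
  simp only [Srv, HNF10.Srv, h]

theorem Srv.anti {N : LNorm G} {B β β' : Set G} {Q Q' : Set (G × ℝ)} (h : Srv N B β Q)
    (hβ : β' ⊆ β) (hQ : Q' ⊆ Q) : Srv N B β' Q' :=
  (Srv.iff N B β' Q').2 (((Srv.iff N B β Q).1 h).anti hβ hQ)

theorem Srv.empty {N : LNorm G} {B β : Set G} (h1 : (1 : G) ∈ B) (hβ : β ⊆ B) :
    Srv N B β ∅ := (Srv.iff N B β ∅).2 (HNF10.Srv.empty h1 hβ)

/-- **The own sequence** of a node. -/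
theorem own [FirstCountableTopology G] (N : LNorm G) (hII : ∀ W ∈ 𝓝 (1 : G), ¬ Phi W)
    {A' : Set G} (hA' : A' ∈ 𝓝 (1 : G)) :
    ∃ e > 0, ∃ a : ℕ → G, (∀ m, a m ∈ A') ∧
      (∀ m m', m ≠ m' → e ≤ N.N ((a m)⁻¹ * a m')) ∧
      ∀ U ∈ 𝓝 (1 : G), ∃ m₀, ∀ m ≥ m₀, ∃ b : ℕ → G, (∀ k, b k ∈ U) ∧
        ∀ k k', k ≠ k' → e ≤ N.N ((b k * a m)⁻¹ * (b k' * a m)) := by
  refine HNF10.exists_own (lInv N) ?_ hA'
  intro W hW
  have h1 := hII W⁻¹ (inv_mem_nhds_one G hW)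
  rw [Phi] at h1
  push Not at h1
  obtain ⟨V, hV, h2⟩ := h1
  obtain ⟨e, he, h3⟩ := N.basis V hV
  refine ⟨e, he, fun U hU => ?_⟩
  obtain ⟨x, hx, c, hc, h4⟩ := h2 U⁻¹ (inv_mem_nhds_one G hU)
  refine ⟨x⁻¹, hx, fun k => (c k)⁻¹, hc, fun k k' hkk => ?_⟩
  by_contra hlt
  refine h4 k k' hkk (h3 _ ?_)
  rw [not_le, dN] at hlt
  have : x * c k * (c k')⁻¹ * x⁻¹ = ((c k)⁻¹ * x⁻¹)⁻¹ * ((c k')⁻¹ * x⁻¹) := by group
  rw [this]
  exact hlt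

/-- **One step of Engine II**: `a`, `e` is the own sequence of the parent `p`. -/
theorem e2_step (N : LNorm G) {ι : Type*} {W : Set ι} {B : ι → Set G}
    {β : Set G} (hβ : β ∈ 𝓝 (1 : G)) {Q : ι → Set (G × ℝ)}
    (hSrv : ∀ w ∈ W, Srv N (B w) β (Q w)) {p : ι} (hp : p ∈ W) (hQf : (Q p).Finite)
    (hQpos : ∀ q ∈ Q p, 0 < q.2) {a : ℕ → G} {e : ℝ}
    (hasep : ∀ m m', m ≠ m' → e ≤ N.N ((a m)⁻¹ * a m'))
    (hadis : ∀ U ∈ 𝓝 (1 : G), ∃ m₀, ∀ m ≥ m₀, ∃ b : ℕ → G, (∀ k, b k ∈ U) ∧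
        ∀ k k', k ≠ k' → e ≤ N.N ((b k * a m)⁻¹ * (b k' * a m)))
    {Z : Set G} (hZ : Z.Finite) {ρ η : ℝ} (hρ : 0 < ρ) (hηρ : 4 * η ≤ ρ)
    (hLev : ∀ ζ ∈ Z, ∃ x, N.N (ζ⁻¹ * x) < η ∧ Lev N e x ρ) {C : Set G} (hC : C.Finite) :
    ∃ τ ∈ B p, ∃ m, (∀ q ∈ Q p, ∀ c ∈ C, q.2 / 10 ≤ N.N (c⁻¹ * ((τ⁻¹ * a m)⁻¹ * q.1))) ∧
      (∀ ζ ∈ Z, ∀ c ∈ C, ρ / 4 ≤ N.N (c⁻¹ * (τ⁻¹ * a m * ζ))) ∧
      ∃ β' ∈ 𝓝 (1 : G), β' ⊆ β ∧ ∀ w ∈ W,
        Srv N (B w) β' (Q w ∪ (fun ζ => (τ⁻¹ * a m * ζ, ρ / 8)) '' Z) := by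
  have hd := lInv N
  have hcomm : ∀ c x : G, N.N (c⁻¹ * x) = dN N x c := fun c x => by
    rw [hd.comm]
    rfl
  obtain ⟨τ, hτ, m, h1, h2, β', h3, h4, h5⟩ := HNF10.step hd hβ
    (fun w hw => (Srv.iff N _ _ _).1 (hSrv w hw)) hp hQf hQpos hasep hadis hZ hρ
    (fun ζ hζ g hg => by
      obtain ⟨x, hx, hL⟩ := hLev ζ hζ
      have h6 : e ≤ N.N g := by
        rw [hd.comm] at hg
        simpa [dN] using hg
      have h7 := hL g h6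
      have h8 : N.N (x⁻¹ * g * x) = dN N (g * x) x := by
        rw [← hcomm, mul_assoc]
      rw [h8] at h7
      have h9 := hd.tri (g * x) (g * ζ) x
      have h10 := hd.tri (g * ζ) ζ x
      have h11 : dN N (g * x) (g * ζ) < η := by
        rw [hd.left, hd.comm]
        exact hx
      have h12 : dN N ζ x < η := hx
      linarith) hC
  refine ⟨τ, hτ, m, fun q hq c hc => ?_, fun ζ hζ c hc => ?_, β', h3, h4,
    fun w hw => (Srv.iff N _ _ _).2 (h5 w hw)⟩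
  · rw [hcomm]
    exact h1 q hq c hc
  · rw [hcomm]
    exact h2 ζ hζ c hc

end Pool.Agent.HNF.H10
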